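import Pool.Agent.W120.WM.Defs2

/-! Project WM2: the link between `XX` and the Riemann zeta function. -/

set_option autoImplicit false

namespace Pool.Agent.W22.WM

open Complex Filter Topology Set
open Pool.Agent.H24R2.JP (XX)
open Pool.Agent.W120.WM (NT)

theorem XX_neg (z : ℂ) : XX (-z) = XX z := by
  unfold XX
  have : (1 / 2 + -z : ℂ) = 1 - (1 / 2 + z) := by ring
  rw [this, completedRiemannZeta₀_one_sub]
  ring

theorem XX_diff : Differentiable ℂ XX := by
  unfold XX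
  have := differentiable_completedZeta₀
  fun_prop

theorem XX_eq {z : ℂ} (h0 : (1 / 2 + z : ℂ) ≠ 0) (h1 : (1 / 2 + z : ℂ) ≠ 1)
    (hG : Gammaℝ (1 / 2 + z) ≠ 0) :
    XX z = 4 * (1 / 2 + z) * (1 / 2 + z - 1) * (Gammaℝ (1 / 2 + z) * riemannZeta (1 / 2 + z)) := by
  rw [riemannZeta_def_of_ne_zero h0, mul_div_cancel₀ _ hG, completedRiemannZeta_eq]
  unfold XX
  have h2 : (1 : ℂ) - (1 / 2 + z) ≠ 0 := sub_ne_zero.2 h1.symm
  generalize completedRiemannZeta₀ (1 / 2 + z) = L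
  have hz : z = (1 / 2 + z) - 1 / 2 := by ring
  generalize hs : (1 / 2 + z : ℂ) = s at *
  rw [hz]
  field_simp
  ring

theorem XX_half : XX (1 / 2) = 4 := by
  unfold XX
  norm_num

theorem XX_zero_pos {z : ℂ} (hs : -1 / 2 < z.re) : XX z = 0 ↔ 1 / 2 + z ∈ NT := by
  have hre : (1 / 2 + z : ℂ).re = 1 / 2 + z.re := by simp
  have hpos : 0 < (1 / 2 + z : ℂ).re := by rw [hre]; linarith
  have h0 : (1 / 2 + z : ℂ) ≠ 0 := by
    intro h
    rw [h] at hpos
    simp at hpos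
  by_cases h1 : (1 / 2 + z : ℂ) = 1
  · have hz : z = 1 / 2 := by linear_combination h1
    subst hz
    constructor
    · intro h
      rw [XX_half] at h
      norm_num at h
    · rintro ⟨_, _, h⟩
      norm_num at h
  · rw [XX_eq h0 h1 (Gammaℝ_ne_zero_of_re_pos hpos)]
    have h2 : (1 / 2 + z : ℂ) - 1 ≠ 0 := sub_ne_zero.2 h1
    have h4 : (4 : ℂ) ≠ 0 := by norm_num
    constructor
    · intro h
      have h5 : riemannZeta (1 / 2 + z) = 0 := by
        rcases mul_eq_zero.1 h with h | h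
        · rcases mul_eq_zero.1 h with h | h
          · rcases mul_eq_zero.1 h with h | h
            · exact absurd h h4
            · exact absurd h h0
          · exact absurd h h2
        · rcases mul_eq_zero.1 h with h | h
          · exact absurd h (Gammaℝ_ne_zero_of_re_pos hpos)
          · exact h
      refine ⟨h5, hpos, ?_⟩
      by_contra hcon
      exact riemannZeta_ne_zero_of_one_le_re (not_lt.1 hcon) h5
    · rintro ⟨h, _, _⟩
      rw [h]
      ring

theorem XX_zero (z : ℂ) : XX z = 0 ↔ 1 / 2 + z ∈ NT := by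
  by_cases hz : -1 / 2 < z.re
  · exact XX_zero_pos hz
  · constructor
    · intro h
      rw [← XX_neg] at h
      have h1 : -1 / 2 < (-z).re := by
        rw [neg_re]
        linarith
      have h2 := ((XX_zero_pos h1).1 h).2.2
      simp only [add_re, neg_re, one_div, inv_re, re_ofNat, normSq_ofNat] at h2
      norm_num at h2
      linarith
    · rintro ⟨_, h, _⟩
      simp only [add_re, one_div, inv_re, re_ofNat, normSq_ofNat] at h
      norm_num at h
      linarith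

theorem XX_deriv {z : ℂ} (hz : 1 / 2 + z ∈ NT) :
    deriv XX z = 4 * (1 / 2 + z) * (1 / 2 + z - 1) * Gammaℝ (1 / 2 + z) *
      deriv riemannZeta (1 / 2 + z) := by
  obtain ⟨hζ, hpos, hlt⟩ := hz
  have h1 : (1 / 2 + z : ℂ) ≠ 1 := by
    intro h
    rw [h] at hlt
    simp at hlt
  have hev : XX =ᶠ[𝓝 z] fun w => (4 * (1 / 2 + w) * (1 / 2 + w - 1) * Gammaℝ (1 / 2 + w)) *
      riemannZeta (1 / 2 + w) := by
    have hc : Continuous fun w : ℂ => (1 / 2 + w : ℂ) := by fun_prop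
    have e1 : ∀ᶠ w in 𝓝 z, 0 < (1 / 2 + w : ℂ).re :=
      (continuous_re.comp hc).continuousAt.eventually (lt_mem_nhds hpos)
    have e2 : ∀ᶠ w in 𝓝 z, (1 / 2 + w : ℂ) ≠ 1 :=
      hc.continuousAt.eventually (isOpen_ne.mem_nhds h1)
    filter_upwards [e1, e2] with w hw hw1
    have hw0 : (1 / 2 + w : ℂ) ≠ 0 := by
      intro h
      rw [h] at hw
      simp at hw
    rw [XX_eq hw0 hw1 (Gammaℝ_ne_zero_of_re_pos hw)]
    ring
  rw [hev.deriv_eq]
  have hG : DifferentiableAt ℂ Gammaℝ (1 / 2 + z) := by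
    have h2 : DifferentiableAt ℂ (fun z => ((Gammaℝ z)⁻¹)⁻¹) (1 / 2 + z) :=
      (differentiable_Gammaℝ_inv _).inv (inv_ne_zero (Gammaℝ_ne_zero_of_re_pos hpos))
    simpa using h2
  have hG' : DifferentiableAt ℂ (fun w => Gammaℝ (1 / 2 + w)) z :=
    DifferentiableAt.comp z hG (by fun_prop)
  have hA : DifferentiableAt ℂ
      (fun w => 4 * (1 / 2 + w) * (1 / 2 + w - 1) * Gammaℝ (1 / 2 + w)) z := by
    refine DifferentiableAt.mul ?_ hG'
    fun_prop
  have hZ : HasDerivAt (fun w => riemannZeta (1 / 2 + w)) (deriv riemannZeta (1 / 2 + z)) z := by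
    have h3 := (differentiableAt_riemannZeta h1).hasDerivAt
    have h4 : HasDerivAt (fun w : ℂ => 1 / 2 + w) 1 z := by
      simpa using (hasDerivAt_id z).const_add (1 / 2 : ℂ)
    have h5 := h3.comp z h4
    rw [mul_one] at h5
    exact h5
  have h6 := hA.hasDerivAt.mul hZ
  rw [hζ, mul_zero, zero_add] at h6
  exact h6.deriv

theorem link : Pool.Agent.W120.WM.U_LINK := by
  have hs : ∀ δ t : ℝ, (1 / 2 + (⟨δ, t⟩ : ℂ)) = (⟨1 / 2 + δ, t⟩ : ℂ) := by
    intro δ t
    apply Complex.ext <;> simp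
  have hs0 : ∀ y : ℝ, (⟨1 / 2 + 0, y⟩ : ℂ) = (⟨1 / 2, y⟩ : ℂ) := by
    intro y
    rw [add_zero]
  have hw : ∀ δ t : ℝ, (⟨1 / 2 + δ, t⟩ : ℂ) - 1 = (⟨δ - 1 / 2, t⟩ : ℂ) := by
    intro δ t
    apply Complex.ext
    · simp only [sub_re, one_re]
      ring
    · simp
  have n4 : ‖(4 : ℂ)‖ = 4 := by simp
  refine ⟨fun y => ?_, fun δ t h0 h1 => ?_, fun y hy => ?_⟩
  · rw [XX_zero, hs, hs0]
    constructor
    · exact fun h => h.1
    · intro h
      refine ⟨h, ?_, ?_⟩ <;> norm_num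
  · have hpos : 0 < (⟨1 / 2 + δ, t⟩ : ℂ).re := by
      show 0 < 1 / 2 + δ
      linarith
    have e0 : (⟨1 / 2 + δ, t⟩ : ℂ) ≠ 0 := by
      intro h
      rw [h] at hpos
      simp at hpos
    have e1 : (⟨1 / 2 + δ, t⟩ : ℂ) ≠ 1 := by
      intro h
      have h2 : (⟨1 / 2 + δ, t⟩ : ℂ).re = 1 := by rw [h]; simp
      change 1 / 2 + δ = 1 at h2
      linarith
    have h3 := XX_eq (z := (⟨δ, t⟩ : ℂ)) (by rw [hs]; exact e0) (by rw [hs]; exact e1)
      (by rw [hs]; exact Gammaℝ_ne_zero_of_re_pos hpos)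
    rw [h3, hs, hw]
    simp only [norm_mul, n4, Pool.Agent.W120.WM.Wg]
    ring
  · have h3 := XX_deriv (z := (⟨0, y⟩ : ℂ)) (by
      rw [hs, hs0]
      refine ⟨hy, ?_, ?_⟩ <;> norm_num)
    rw [h3, hs, hw, hs0]
    simp only [norm_mul, n4, Pool.Agent.W120.WM.Wg]
    rw [hs0]
    ring

end Pool.Agent.W22.WM
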